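import Pool.Agent.PEt.Stmt
import Pool.Agent.PEt5.AS3

/-! Products of the error terms of an element of degree 2 and of an element of degree 3 of the real
Selberg class, both arbitrary: large values of both signs. -/

set_option autoImplicit false

open Set

namespace Pool.Agent.Results.MP_a10c55_nt.DegreesTwoThree

open Pool.Agent.PEt

/-- Let `L` and `M` be elements of the real Selberg class of degrees 2 and 3 and let `5/6 < δ < 1`.
There are `c > 0` and `T0` such that for all `T ≥ T0` there are `x1, x2 ∈ [T, T + T^δ]` with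
`E_f(x1) E_g(x1) > c T^(7/12)` and `E_f(x2) E_g(x2) < -c T^(7/12)`. -/
theorem result {a b : ℕ → ℝ} {L M : ℂ → ℂ} (hL : RealSelberg a L 2) (hM : RealSelberg b M 3)
    {δ : ℝ} (hδ : 5 / 6 < δ) (hδ' : δ < 1) :
    ∃ c T0 : ℝ, 0 < c ∧ ∀ T : ℝ, T0 ≤ T →
      (∃ x ∈ Icc T (T + T ^ δ), c * T ^ (7 / 12 : ℝ) < errTerm a L x * errTerm b M x) ∧
      ∃ x ∈ Icc T (T + T ^ δ), errTerm a L x * errTerm b M x < -(c * T ^ (7 / 12 : ℝ)) :=
  Pool.Agent.PEt5.main3 hL hM hδ hδ'

end Pool.Agent.Results.MP_a10c55_nt.DegreesTwoThree
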