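import Pool.Agent.PEt.Stmt
import Pool.Agent.PEt.AS

/-! Products of the error term of an element of degree 2 of the real Selberg class and of the error
term `Δ_k` of the Piltz divisor problem, `k ≥ 4`: large values of both signs. -/

set_option autoImplicit false

open Set

namespace Pool.Agent.Results.MP_a10c55_nt.PiltzProducts

open Pool.Agent.PEt

/-- Let `L` be an element of degree 2 of the real Selberg class and let `k ≥ 4`. Put
`σ = 1/4 + (k-1)/(2k)` and `δ = 1 - 1/(32k)`. There are `c > 0` and `T0` such that for all `T ≥ T0`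
there are `x1, x2 ∈ [T, T + T^δ]` with `E_f(x1) Δ_k(x1) > c T^σ` and `E_f(x2) Δ_k(x2) < -c T^σ`. -/
theorem result {a : ℕ → ℝ} {L : ℂ → ℂ} (h : RealSelberg a L 2) {k : ℕ} (hk : 4 ≤ k) :
    ∃ c T0 : ℝ, 0 < c ∧ ∀ T : ℝ, T0 ≤ T →
      (∃ x ∈ Icc T (T + T ^ (1 - 1 / (32 * (k : ℝ)))),
        c * T ^ (1 / 4 + ((k : ℝ) - 1) / (2 * k)) <
          errTerm a L x * errTerm (dk k) (fun s => riemannZeta s ^ k) x) ∧
      ∃ x ∈ Icc T (T + T ^ (1 - 1 / (32 * (k : ℝ)))),
        errTerm a L x * errTerm (dk k) (fun s => riemannZeta s ^ k) x <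
          -(c * T ^ (1 / 4 + ((k : ℝ) - 1) / (2 * k))) :=
  main_theorem h hk

end Pool.Agent.Results.MP_a10c55_nt.PiltzProducts
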